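import Pool.Agent.Q195.BC1

set_option autoImplicit false

open Pool.Agent.Q195.BC

namespace Pool.Agent.Results.MP_11f428_an.DualBCImpliesShrinking

/-- M-basis with its associated sequence of functionals. -/
def IsMBasis {𝕜 : Type} [RCLike 𝕜] {E : Type} [NormedAddCommGroup E] [NormedSpace 𝕜 E]
    (x : ℕ → E) (f : ℕ → E →L[𝕜] 𝕜) : Prop :=
  (∀ i, f i (x i) = 1) ∧ (∀ i j, i ≠ j → f i (x j) = 0) ∧
    (Submodule.span 𝕜 (Set.range x)).topologicalClosure = ⊤ ∧
    (∀ z, (∀ i, f i z = 0) → z = 0)

/-- For every M-basis of every Banach space: if the functionals form a boundedly complete M-basis of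
their closed span, then that closed span is the whole dual. -/
theorem result (𝕜 : Type) [RCLike 𝕜] (E : Type) [NormedAddCommGroup E] [NormedSpace 𝕜 E]
    [CompleteSpace E] (x : ℕ → E) (f : ℕ → E →L[𝕜] 𝕜) (hM : IsMBasis x f)
    (hbc : DualBoundedlyComplete (Submodule.span 𝕜 (Set.range f)).topologicalClosure x) :
    (Submodule.span 𝕜 (Set.range f)).topologicalClosure = ⊤ := by
  apply main x hM.2.2.1 _ hbc
  intro z hz
  apply hM.2.2.2
  intro i
  exact hz (f i) (Submodule.le_topologicalClosure _ (Submodule.subset_span ⟨i, rfl⟩))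

end Pool.Agent.Results.MP_11f428_an.DualBCImpliesShrinking
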